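import Pool.Agent.Lib.P7de1bc.JFK

set_option autoImplicit false
open Filter Topology

namespace Pool.Agent.Results.MP_7de1bc_an.NoRotundRenorming

/-- a subspace isomorphic to `ℓ₁` gives an operator on `ℓ₁` which is bounded below -/
lemma exists_op (𝕜 : Type) [RCLike 𝕜] (X : Type) [NormedAddCommGroup X] [NormedSpace 𝕜 X]
    (Y : Submodule 𝕜 X) (T : lp (fun _ : ℕ => 𝕜) (1 : ENNReal) ≃L[𝕜] Y) :
    ∃ (S : lp (fun _ : ℕ => 𝕜) (1 : ENNReal) →L[𝕜] X) (c : ℝ), 0 < c ∧ ∀ y, c * ‖y‖ ≤ ‖S y‖ := by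
  have hK : 0 < ‖(T.symm : Y →L[𝕜] lp (fun _ : ℕ => 𝕜) (1 : ENNReal))‖ + 1 := by positivity
  refine ⟨Y.subtypeL.comp (T : lp (fun _ : ℕ => 𝕜) (1 : ENNReal) →L[𝕜] Y),
    (‖(T.symm : Y →L[𝕜] lp (fun _ : ℕ => 𝕜) (1 : ENNReal))‖ + 1)⁻¹, inv_pos.2 hK, fun y => ?_⟩
  have h1 := (T.symm : Y →L[𝕜] lp (fun _ : ℕ => 𝕜) (1 : ENNReal)).le_opNorm (T y)
  have h2 : (T.symm : Y →L[𝕜] lp (fun _ : ℕ => 𝕜) (1 : ENNReal)) (T y) = y := by simp
  rw [h2] at h1
  have h3 : ‖Y.subtypeL.comp (T : lp (fun _ : ℕ => 𝕜) (1 : ENNReal) →L[𝕜] Y) y‖ = ‖T y‖ := rfl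
  rw [h3, inv_mul_le_iff₀ hK]
  nlinarith [norm_nonneg (T y)]

/-- Over the real and over the complex scalars there is a separable Banach space `X` without a
closed subspace linearly isomorphic to `ℓ₁`, such that for every equivalent norm `p` on `X` there
is a sequence of `p`-unit vectors `u n` with `p (u n + u m) → 2` (double limit), even with
`p`-norms of all convex combinations of tails tending to `1`, which is not weakly Cauchy. -/
theorem result (𝕜 : Type) [RCLike 𝕜] :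
    ∃ (X : Type) (_ : NormedAddCommGroup X) (_ : NormedSpace 𝕜 X),
      CompleteSpace X ∧ TopologicalSpace.SeparableSpace X ∧
      (¬ ∃ Y : Submodule 𝕜 X, IsClosed (Y : Set X) ∧
        Nonempty (lp (fun _ : ℕ => 𝕜) (1 : ENNReal) ≃L[𝕜] Y)) ∧
      ∀ (p : Seminorm 𝕜 X) (a b : ℝ), 0 < a → (∀ x : X, a * ‖x‖ ≤ p x ∧ p x ≤ b * ‖x‖) →
        ∃ u : ℕ → X, (∀ n, p (u n) = 1) ∧
          Tendsto (fun k : ℕ × ℕ => p (u k.1 + u k.2)) atTop (𝓝 2) ∧
          (∀ ε : ℝ, 0 < ε → ∃ N : ℕ, ∀ (s : Finset ℕ) (c : ℕ → ℝ),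
            (∀ i ∈ s, N ≤ i ∧ 0 ≤ c i) → ∑ i ∈ s, c i = 1 →
              1 - ε ≤ p (∑ i ∈ s, (c i : 𝕜) • u i)) ∧
          ∃ f : X →L[𝕜] 𝕜, ¬ CauchySeq (fun n => f (u n)) := by
  refine ⟨Pool.Agent.Lib.P7de1bc.K.JFK 𝕜, inferInstance, inferInstance, inferInstance,
    inferInstance, ?_, ?_⟩
  · rintro ⟨Y, -, ⟨T⟩⟩
    apply Pool.Agent.Lib.P7de1bc.K.no_l1 𝕜
    exact exists_op 𝕜 _ Y T
  · intro p a b ha hab
    obtain ⟨w, hw, hh, f, δ, hδ, hf0, hf1⟩ :=
      Pool.Agent.Lib.P7de1bc.K.bad_seq 𝕜 p a b ha hab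
    have hcomb : ∀ ε : ℝ, 0 < ε → ∃ N : ℕ, ∀ (s : Finset ℕ) (c : ℕ → ℝ),
        (∀ i ∈ s, N ≤ i ∧ 0 ≤ c i) → ∑ i ∈ s, c i = 1 →
          1 - ε ≤ p (∑ i ∈ s, (c i : 𝕜) • w i) := by
      intro ε hε
      obtain ⟨N, hN⟩ := hh ε hε
      refine ⟨N, fun s c hc hs => hN _ ?_⟩
      have h1 : ∑ i ∈ s, (c i : 𝕜) • w i = ∑ i ∈ s, c i • w i :=
        Finset.sum_congr rfl (fun i _ => (RCLike.real_smul_eq_coe_smul (K := 𝕜) (c i) (w i)).symm)
      rw [h1]
      exact (convex_convexHull ℝ _).sum_mem (fun i hi => (hc i hi).2) hs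
        (fun i hi => subset_convexHull ℝ _ ⟨i, (hc i hi).1, rfl⟩)
    refine ⟨w, hw, ?_, hcomb, f, ?_⟩
    · rw [tendsto_order]
      constructor
      · intro r hr
        obtain ⟨N, hN⟩ := hcomb ((2 - r) / 4) (by linarith)
        rw [eventually_atTop]
        refine ⟨(N, N), ?_⟩
        rintro ⟨i, j⟩ ⟨hi, hj⟩
        simp only at hi hj
        simp only
        by_cases hij : i = j
        · subst hij
          have h1 : w i + w i = (2 : 𝕜) • w i := by rw [two_smul]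
          rw [h1, map_smul_eq_mul, hw, RCLike.norm_ofNat]
          linarith
        · have h1 := hN {i, j} (fun _ => 1 / 2) (by
            intro k hk
            simp only [Finset.mem_insert, Finset.mem_singleton] at hk
            rcases hk with rfl | rfl
            · exact ⟨hi, by norm_num⟩
            · exact ⟨hj, by norm_num⟩) (by rw [Finset.sum_pair hij]; norm_num)
          rw [Finset.sum_pair hij, ← smul_add, map_smul_eq_mul, RCLike.norm_ofReal,
            abs_of_pos (by norm_num : (0:ℝ) < 1 / 2)] at h1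
          linarith
      · intro r hr
        filter_upwards with k
        have h1 := map_add_le_add p (w k.1) (w k.2)
        rw [hw, hw] at h1
        linarith
    · intro hC
      rw [Metric.cauchySeq_iff] at hC
      obtain ⟨N, hN⟩ := hC δ hδ
      have h1 := hN (2 * N) (by simp only [ge_iff_le]; omega) (2 * N + 1)
        (by simp only [ge_iff_le]; omega)
      rw [hf0, dist_zero_left] at h1
      exact absurd (hf1 N) (not_le.2 h1)

end Pool.Agent.Results.MP_7de1bc_an.NoRotundRenorming
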